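import Pool.Agent.L0h21.CK.Stm

/-! CK, module grad (helper6): p-adic lower bound of the gradient -/

set_option autoImplicit false

namespace Pool.Agent.L0h6.CK

open MvPolynomial Pool.Agent.L0h21.CK

theorem cont_eval {p : ℕ} [Fact p.Prime] {V : Type} (a : MvPolynomial V ℚ_[p]) :
    Continuous fun x : V → ℤ_[p] => eval (fun j => (x j : ℚ_[p])) a :=
  (MvPolynomial.continuous_eval a).comp
    (continuous_pi fun j => continuous_subtype_val.comp (continuous_apply j))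

theorem t_grad : S_grad := by
  intro p hp V _ F u M hu hmem
  have hp1 : (1 : ℝ) < p := by exact_mod_cast hp.out.one_lt
  have hq0 : (0 : ℝ) < (p : ℝ)⁻¹ := by positivity
  have hq1 : (p : ℝ)⁻¹ < 1 := inv_lt_one_of_one_lt₀ hp1
  -- the coefficients
  have h1 : ∀ v, ∃ a : V → MvPolynomial V ℚ_[p], ∑ i, a i * pderiv i F = u * X v ^ M := fun v =>
    (Ideal.mem_span_range_iff_exists_fun).1 (hmem v)
  choose a ha using h1
  -- the bound
  have h2 : ∀ v i, ∃ B : ℝ, ∀ x : V → ℤ_[p], ‖eval (fun j => (x j : ℚ_[p])) (a v i)‖ ≤ B := by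
    intro v i
    obtain ⟨B, hB⟩ := isCompact_univ.exists_bound_of_continuousOn (cont_eval (a v i)).continuousOn
    exact ⟨B, fun x => hB x (Set.mem_univ _)⟩
  choose B hB using h2
  obtain ⟨T, hT⟩ : ∃ T : ℝ, T = ∑ v, ∑ i, |B v i| + 1 := ⟨_, rfl⟩
  have hT0 : 0 < T := by
    rw [hT]
    have : 0 ≤ ∑ v, ∑ i, |B v i| := Finset.sum_nonneg fun _ _ => Finset.sum_nonneg fun _ _ =>
      abs_nonneg _
    linarith
  have hBT : ∀ v i (x : V → ℤ_[p]), ‖eval (fun j => (x j : ℚ_[p])) (a v i)‖ ≤ T := by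
    intro v i x
    refine (hB v i x).trans ((le_abs_self _).trans ?_)
    have e1 : |B v i| ≤ ∑ i, |B v i| :=
      Finset.single_le_sum (f := fun i => |B v i|) (fun _ _ => abs_nonneg _) (Finset.mem_univ i)
    have e2 : ∑ i, |B v i| ≤ ∑ v, ∑ i, |B v i| :=
      Finset.single_le_sum (f := fun v => ∑ i, |B v i|)
        (fun _ _ => Finset.sum_nonneg fun _ _ => abs_nonneg _) (Finset.mem_univ v)
    linarith
  -- the unit
  have hu0 : 0 < ‖eval 0 u‖ := norm_pos_iff.2 hu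
  obtain ⟨k0, hk0⟩ : ∃ k0 : ℕ, ∀ x : V → ℤ_[p], (∀ i, ‖x i‖ ≤ ((p : ℝ)⁻¹) ^ k0) →
      ‖eval 0 u‖ / 2 ≤ ‖eval (fun j => (x j : ℚ_[p])) u‖ := by
    have hc := (cont_eval u).norm.continuousAt (x := 0)
    have h0 : ‖eval (fun j => (((0 : V → ℤ_[p]) j : ℤ_[p]) : ℚ_[p])) u‖ = ‖eval 0 u‖ := by
      congr 1
    have h3 := hc.eventually (lt_mem_nhds (show ‖eval 0 u‖ / 2 <
      ‖eval (fun j => (((0 : V → ℤ_[p]) j : ℤ_[p]) : ℚ_[p])) u‖ by rw [h0]; linarith))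
    rw [Metric.eventually_nhds_iff] at h3
    obtain ⟨δ, hδ, h4⟩ := h3
    obtain ⟨k0, hk0⟩ := exists_pow_lt_of_lt_one hδ hq1
    refine ⟨k0, fun x hx => le_of_lt (h4 ?_)⟩
    rw [dist_pi_lt_iff hδ]
    intro i
    rw [Pi.zero_apply, dist_zero_right]
    exact lt_of_le_of_lt (hx i) hk0
  obtain ⟨c, hc⟩ := exists_pow_lt_of_lt_one
    (show 0 < ‖eval 0 u‖ / 2 / ((Fintype.card V + 1) * T) by positivity) hq1
  refine ⟨c, k0, fun x hx v => ?_⟩
  obtain ⟨i0, -, hi0⟩ := Finset.exists_max_image Finset.univ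
    (fun i => ‖eval (fun j => (x j : ℚ_[p])) (pderiv i F)‖) ⟨v, Finset.mem_univ v⟩
  refine ⟨i0, ?_⟩
  set G := ‖eval (fun j => (x j : ℚ_[p])) (pderiv i0 F)‖ with hG
  have h5 : ‖eval (fun j => (x j : ℚ_[p])) u‖ * ‖x v‖ ^ M ≤ Fintype.card V * (T * G) := by
    have h6 := congrArg (fun q => ‖eval (fun j => (x j : ℚ_[p])) q‖) (ha v)
    simp only [map_sum, map_mul, map_pow, eval_X, norm_mul, norm_pow] at h6
    rw [PadicInt.norm_def, ← h6]
    refine (norm_sum_le _ _).trans ?_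
    have h7 : ∀ i ∈ (Finset.univ : Finset V), ‖eval (fun j => (x j : ℚ_[p])) (a v i) *
        eval (fun j => (x j : ℚ_[p])) (pderiv i F)‖ ≤ T * G := by
      intro i hi
      rw [norm_mul]
      exact mul_le_mul (hBT v i x) (hi0 i hi) (norm_nonneg _) hT0.le
    refine (Finset.sum_le_card_nsmul _ _ _ h7).trans (le_of_eq ?_)
    rw [nsmul_eq_mul, Finset.card_univ]
  have h8 : ‖eval 0 u‖ / 2 * ‖x v‖ ^ M ≤ (Fintype.card V + 1) * T * G := by
    have e1 := mul_le_mul_of_nonneg_right (hk0 x hx) (pow_nonneg (norm_nonneg (x v)) M)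
    have e2 : 0 ≤ T * G := mul_nonneg hT0.le (norm_nonneg _)
    nlinarith
  have h9 : (0 : ℝ) < (Fintype.card V + 1) * T := by positivity
  calc ((p : ℝ)⁻¹) ^ c * ‖x v‖ ^ M ≤ ‖eval 0 u‖ / 2 / ((Fintype.card V + 1) * T) * ‖x v‖ ^ M :=
        mul_le_mul_of_nonneg_right hc.le (pow_nonneg (norm_nonneg _) _)
    _ = (‖eval 0 u‖ / 2 * ‖x v‖ ^ M) / ((Fintype.card V + 1) * T) := by ring
    _ ≤ G := by
      rw [div_le_iff₀ h9]
      linarith

end Pool.Agent.L0h6.CK
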